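import Pool.Agent.Q45.ML.Par
import Pool.Agent.Q117.ML.Lead

/-!
# The central order of `L(s, π)` from smoothed sums of Satake parameters

Let `F` be an imaginary quadratic field (any number field is allowed below), `π` a regular algebraic cuspidal
representation of `GL_n(𝔸_F)` with `π^∨ ≃ π^c |·|^{-1}`, `α v j` its local parameters at the finite place `v` (padded by
zeros at the ramified places), `|α v j| ≤ q_v^{-1/2}`, and `L` its entire `L`-function,
`L(s) = ∏_v ∏_j (1 - α v j q_v^{-s})⁻¹` for `Re s > 1/2`; the centre is `s = 0`. For `γ > π/2` put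

`S(T) = ∑_v ∑_{k ≥ 1} (∑_j (α v j)^k / k) e^{iγ k log q_v/T} / Γ(1 + k log q_v/T)`.

Then `S(T) = r - ord_{s=0} L (log T - Λ) + O(1/T)`, `e^r` the leading coefficient; the equality `ord_{s=0} L = h`,
`h = dim H¹_f`, and the equality of order AND leading coefficient with given values are equivalent to limit relations
along one sequence `T → ∞`.
-/

set_option autoImplicit false

namespace Pool.Agent.Results.MP_7c08ba_nt.CentralOrderSatakeSums

open Filter Topology Asymptotics NumberField IsDedekindDomain Pool.Agent.Q45.ML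

variable {K : Type} [Field K] [NumberField K] {n : ℕ}

/-- the term at `(v, k)`, `k = z.2 + 1`: `(∑_j (α v j)^k / k) e^{iγ k log q_v/T} / Γ(1 + k log q_v/T)` -/
noncomputable def term (α : HeightOneSpectrum (𝓞 K) → Fin n → ℂ) (γ T : ℝ)
    (z : HeightOneSpectrum (𝓞 K) × ℕ) : ℂ :=
  (∑ j, α z.1 j ^ (z.2 + 1)) / (z.2 + 1) *
    (Complex.exp ((γ * ((z.2 + 1) * Real.log (Ideal.absNorm z.1.asIdeal : ℝ) / T) : ℝ) * Complex.I) /
      (Real.Gamma (1 + (z.2 + 1) * Real.log (Ideal.absNorm z.1.asIdeal : ℝ) / T) : ℂ))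

/-- the smoothed sum -/
noncomputable def S (α : HeightOneSpectrum (𝓞 K) → Fin n → ℂ) (γ T : ℝ) : ℂ := ∑' z, term α γ T z

/-- the constant `Λ(γ) = ∫_0^∞ (e^{-t} - e^{iγt}/Γ(1+t)) dt/t` -/
noncomputable def Lam (γ : ℝ) : ℂ := Pool.Agent.W187.UR.Lam γ

theorem term_eq (α : HeightOneSpectrum (𝓞 K) → Fin n → ℂ) (γ T : ℝ)
    (z : HeightOneSpectrum (𝓞 K) × ℕ) :
    term α γ T z = sterm (fun v : HeightOneSpectrum (𝓞 K) => nrm v) α 0 γ T z := by
  unfold term sterm nrm
  simp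

theorem result (α : HeightOneSpectrum (𝓞 K) → Fin n → ℂ)
    (hα : ∀ v j, ‖α v j‖ ≤ (Ideal.absNorm v.asIdeal : ℝ) ^ (-(1 / 2) : ℝ))
    (L : ℂ → ℂ) (hent : Differentiable ℂ L)
    (hL : ∀ s : ℂ, 1 / 2 < s.re → HasProd (fun v : HeightOneSpectrum (𝓞 K) =>
      ∏ j, (1 - α v j * (Ideal.absNorm v.asIdeal : ℂ) ^ (-s))⁻¹) (L s))
    {γ : ℝ} (hγ : Real.pi / 2 < γ) :
    (∀ T : ℝ, 0 < T → Summable fun z => ‖term α γ T z‖) ∧
    ∃ (m : ℕ) (r : ℂ), analyticOrderAt L 0 = m ∧ Complex.exp r = iteratedDeriv m L 0 / m.factorial ∧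
      (fun T : ℝ => S α γ T - (r - m * (Real.log T - Lam γ))) =O[atTop] (fun T : ℝ => 1 / T) ∧
      (∀ h : ℕ, List.TFAE [m = h,
        ∃ M : ℝ, ∀ᶠ T : ℝ in atTop, |(S α γ T).re + h * Real.log T| ≤ M,
        Tendsto (fun T : ℝ => (S α γ T).re / Real.log T) atTop (𝓝 (-h)),
        ∃ t : ℕ → ℝ, Tendsto t atTop atTop ∧
          Tendsto (fun n => (S α γ (t n)).re / Real.log (t n)) atTop (𝓝 (-h))]) ∧
      ∀ (h : ℕ) (B : ℂ), B ≠ 0 → List.TFAE [m = h ∧ iteratedDeriv m L 0 / m.factorial = B,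
        Tendsto (fun T : ℝ => Complex.exp (S α γ T) * (T : ℂ) ^ h) atTop
          (𝓝 (B * Complex.exp (h * Lam γ))),
        ∃ t : ℕ → ℝ, Tendsto t atTop atTop ∧
          Tendsto (fun n => Complex.exp (S α γ (t n)) * (t n : ℂ) ^ h) atTop
            (𝓝 (B * Complex.exp (h * Lam γ)))] := by
  have hE : Eul n (fun v : HeightOneSpectrum (𝓞 K) => nrm v) α (-(1 / 2)) 1 :=
    ⟨zero_le_one, two_le_nrm, fun _ hσ => nrm_summable hσ, hα⟩
  have hS : ∀ T, smooth (fun v : HeightOneSpectrum (𝓞 K) => nrm v) α 0 γ T = S α γ T := by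
    intro T
    unfold smooth S
    simp only [term_eq]
  obtain ⟨m', r, h1, h2, h3⟩ := hE.lawC (F := L) (s₀ := 0) (by norm_num)
    (fun x hx hx1 => (hent.analyticAt _).meromorphicAt)
    (fun s hs => hL s (by linarith)) hγ
  simp only [hS] at h3
  rw [Complex.ofReal_zero] at h1 h2
  obtain ⟨m, rfl, hm⟩ := ord_nat (hent.analyticAt 0) h1
  have hcoef : meromorphicTrailingCoeffAt L 0 = iteratedDeriv m L 0 / m.factorial :=
    Pool.Agent.Q117.ML.leading_eq (hent.analyticAt 0) hm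
  refine ⟨fun T hT => ?_, m, r, hm, by rw [h2, hcoef], h3, fun h => ?_, fun h B hB => ?_⟩
  · simp only [term_eq]
    exact hE.sterm_summable 0 γ hT
  · have := order_tfae h3 (h : ℤ)
    simpa using this
  · have := coeff_tfae h3 (h : ℤ) hB
    rw [h2, hcoef] at this
    simp only [Int.cast_natCast, zpow_natCast, Nat.cast_inj] at this
    exact this

end Pool.Agent.Results.MP_7c08ba_nt.CentralOrderSatakeSums
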