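import Mathlib
import Pool.Agent.Q190.RV.Pure

/-!
# Conjugate-self-dual `π` on `GL_n`: the Bloch-Kato equality and ratios of Euler products at the centre

`π` is a regular algebraic cuspidal automorphic representation of `GL_n` over an imaginary quadratic field `K` with
`π^∨ ≅ π^c |·|^{-1}` as in the problem, `S` a finite set of finite places containing those where `π` is ramified, and
`α_{v,j}`, `1 ≤ j ≤ n`, `v ∉ S`, the Satake parameters of the unitary twist `π |·|^{-1/2}`. It is known that they have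
the absolute value `1` (Shin, Clozel, Caraiani; Chenevier-Harris), and that
`F(s) = L^S(s - 1/2, π) = ∏_{v ∉ S} ∏_j (1 - α_{v,j} q_v^{-s})⁻¹` (`Re s > 1`) is entire and of polynomial growth in
vertical strips, with `ord_{s=1/2} F = ord_{s=0} L(s, π)`, a number of the parity of `(1 - ε(π))/2`. The centre of `F` is
`s = 1/2`. The theorem below holds for all number fields `K` and all data with these properties. Let

`P(y) = ∏_{v ∉ S, q_v ≤ y} |∏_j (1 - α_{v,j} q_v^{-1/2})|`,

which is computed from the characteristic polynomials of Frobenius elements of `ρ_{π,ι}`, and let `m` be the order of `F`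
at `1/2`. The Riemann hypothesis for `π` is the statement `F(s) ≠ 0` for `Re s > 1/2`. All the inequalities below are
supposed for all large `y`.

1. If `P(y^l) ≤ Q P(y)` for ONE exponent `l > 1`, then the Riemann hypothesis holds for `π`, and `l^m ≤ Q`.
2. If also `q P(y) ≤ P(y^l)`, `q > 0`, then `q ≤ l^m ≤ Q`.
3. If `P(y^l) / P(y)` converges to `c` for one `l > 1`, then the Riemann hypothesis holds for `π`, and `c = l^m`.
4. For a natural number `r` (`r = dim H¹_f` in the problem) the bounds `a (log y)^r ≤ P(y) ≤ b (log y)^r`, `a > 0`, hold if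
   and only if `m = r` and `P` is regular: for all `l` in some set of positive outer measure in `(1, ∞)` there is a
   `Q(l)` with `P(y^l) ≤ Q(l) P(y)`. The regularity of `P` implies the Riemann hypothesis for `π` and two-sided bounds
   `a P(y) ≤ P(y^l) ≤ b P(y)` for all `l > 0`. With a real exponent `κ` which is not the order the bounds
   `a (log y)^κ ≤ P(y) ≤ b (log y)^κ` never hold.
5. Let `r` have the parity of `m` (for `r = dim H¹_f`: the sign conjecture). If `P(y^l) ≤ Q P(y)` for one `l > 1` and one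
   `Q < l^(r+2)`, then `m ≤ r` (with equality for `r ≤ 1`) and the Riemann hypothesis holds for `π`; if moreover
   `q P(y) ≤ P(y^l)` with `q > l^(r-2)`, then `m = r`, the Bloch-Kato equality.
-/

set_option autoImplicit false

namespace Pool.Agent.Results.MP_7c08ba_nt.SatakeProductRatios

open Filter Topology Set Complex NumberField IsDedekindDomain MeasureTheory

variable {K : Type} [Field K] [NumberField K] {n : ℕ}

/-- `q_v` -/
noncomputable def norm (v : HeightOneSpectrum (𝓞 K)) : ℕ := Ideal.absNorm v.asIdeal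

/-- `∏_j (1 - α_{v,j} q_v^{-s})` -/
noncomputable def factor (α : HeightOneSpectrum (𝓞 K) → Fin n → ℂ) (v : HeightOneSpectrum (𝓞 K)) (s : ℂ) : ℂ :=
  ∏ j, (1 - α v j * (norm v : ℂ) ^ (-s))

/-- `α` are the Satake parameters, of absolute value `1`, and `F` is holomorphic, of polynomial growth in a half plane
`Re s > 1/2 - η`, and equal to the Euler product over the places outside of `S` for `Re s > 1`. -/
structure IsL (S : Finset (HeightOneSpectrum (𝓞 K))) (α : HeightOneSpectrum (𝓞 K) → Fin n → ℂ) (F : ℂ → ℂ) :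
    Prop where
  abs : ∀ v, v ∉ S → ∀ j, ‖α v j‖ = 1
  holo : ∃ (η C : ℝ) (k : ℕ), 0 < η ∧ ∀ s : ℂ, 1 / 2 - η < s.re → DifferentiableAt ℂ F s ∧ ‖F s‖ ≤ C * (1 + ‖s‖) ^ k
  euler : ∀ s : ℂ, 1 < s.re → HasProd (fun v : {v : HeightOneSpectrum (𝓞 K) // v ∉ S} => (factor α v.1 s)⁻¹) (F s)

/-- `P(y) = ∏_{v ∉ S, q_v ≤ y} |∏_j (1 - α_{v,j} q_v^{-1/2})|` -/
noncomputable def product (S : Finset (HeightOneSpectrum (𝓞 K))) (α : HeightOneSpectrum (𝓞 K) → Fin n → ℂ)
    (y : ℝ) : ℝ :=
  ∏ᶠ v ∈ {v : HeightOneSpectrum (𝓞 K) | v ∉ S ∧ (norm v : ℝ) ≤ y}, ‖factor α v (1 / 2)‖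

/-- the order of `F` at the centre `1/2` is `m` -/
def CentralOrder (F : ℂ → ℂ) (m : ℕ) : Prop := analyticOrderAt F (1 / 2) = m

/-- the Riemann hypothesis: `F` has no zeros with `Re s > 1/2` -/
def NoZeros (F : ℂ → ℂ) : Prop := ∀ s : ℂ, 1 / 2 < s.re → F s ≠ 0

/-- `P(y^l) ≤ Q P(y)` for all large `y` -/
def Upper (P : ℝ → ℝ) (l Q : ℝ) : Prop := ∀ᶠ y : ℝ in atTop, P (y ^ l) ≤ Q * P y

/-- `q P(y) ≤ P(y^l)` for all large `y` -/
def Lower (P : ℝ → ℝ) (l q : ℝ) : Prop := ∀ᶠ y : ℝ in atTop, q * P y ≤ P (y ^ l)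

/-- `P(y) ≍ (log y)^κ` -/
def OfOrder (P : ℝ → ℝ) (κ : ℝ) : Prop :=
  ∃ a b : ℝ, 0 < a ∧ ∀ᶠ y : ℝ in atTop, a * Real.log y ^ κ ≤ P y ∧ P y ≤ b * Real.log y ^ κ

/-- There is a set `Λ ⊆ (1, ∞)` of positive (outer) Lebesgue measure such that for every `l ∈ Λ` there is a `Q` with
`P(y^l) ≤ Q P(y)` for all large `y`. -/
def Regular (P : ℝ → ℝ) : Prop :=
  ∃ Λ : Set ℝ, Λ ⊆ Ioi 1 ∧ volume Λ ≠ 0 ∧ ∀ l ∈ Λ, ∃ Q : ℝ, Upper P l Q

/-! ### translation -/

variable {S : Finset (HeightOneSpectrum (𝓞 K))} {α : HeightOneSpectrum (𝓞 K) → Fin n → ℂ} {F : ℂ → ℂ}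

theorem half_c : (1 / 2 : ℝ) = (((0 : ℕ) : ℝ) + 1) / 2 := by norm_num

theorem product_eq : product S α = Pool.Agent.Q18.P.product (1 / 2) S α := by
  funext y
  unfold product Pool.Agent.Q18.P.product
  refine finprod_congr fun v => finprod_congr fun _ => ?_
  unfold factor
  push_cast
  rfl

/-- **Conjugate-self-dual `π`: the central order and ratios of Euler products.** -/
theorem result (K : Type) [Field K] [NumberField K] (n : ℕ) (S : Finset (HeightOneSpectrum (𝓞 K)))
    (α : HeightOneSpectrum (𝓞 K) → Fin n → ℂ) (F : ℂ → ℂ) (hF : IsL S α F) :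
    ∃ m : ℕ, CentralOrder F m ∧
      -- (1) one exponent, one-sided
      (∀ l Q : ℝ, 1 < l → Upper (product S α) l Q → NoZeros F ∧ l ^ m ≤ Q) ∧
      -- (2) one exponent, two-sided
      (∀ l q Q : ℝ, 1 < l → 0 < q → Lower (product S α) l q → Upper (product S α) l Q →
        NoZeros F ∧ q ≤ l ^ m ∧ l ^ m ≤ Q) ∧
      -- (3) convergence of the ratio
      (∀ l c : ℝ, 1 < l → Tendsto (fun y : ℝ => product S α (y ^ l) / product S α y) atTop (𝓝 c) →
        NoZeros F ∧ c = l ^ m) ∧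
      -- (4) the order of magnitude
      (∀ r : ℕ, OfOrder (product S α) r ↔ m = r ∧ Regular (product S α)) ∧
      (∀ κ : ℝ, OfOrder (product S α) κ → κ = m) ∧
      (Regular (product S α) → NoZeros F ∧ ∀ l : ℝ, 0 < l → ∃ a b : ℝ, 0 < a ∧
        Lower (product S α) l a ∧ Upper (product S α) l b) ∧
      -- (5) the sign conjecture and the equality
      ∀ r : ℕ, (2 : ℤ) ∣ m - r → ∀ l Q : ℝ, 1 < l → Q < l ^ (r + 2) → Upper (product S α) l Q →
        NoZeros F ∧ m ≤ r ∧ (r ≤ 1 → m = r) ∧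
        ∀ q : ℝ, l ^ r < l ^ 2 * q → Lower (product S α) l q → m = r := by
  have hb : Pool.Agent.Q18.P.Bdd 0 S α := by
    intro v hv j
    rw [hF.abs v hv j]
    simp
  have hH : Pool.Agent.Q190.RV.Holo (1 / 2) S α F := ⟨hF.holo, fun s hs => hF.euler s (by linarith)⟩
  obtain ⟨m, hm⟩ := hH.order_finite' half_c hb
  have hm' : CentralOrder F m := by
    unfold CentralOrder
    rw [← hm]
    push_cast
    rfl
  obtain ⟨o1, o2⟩ := Pool.Agent.Q190.RV.order_law half_c hb hH hm
  rw [← product_eq] at o1 o2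
  have o1' : ∀ κ : ℝ, OfOrder (product S α) κ ↔ κ = m ∧ Regular (product S α) := o1
  have u1 : ∀ l Q : ℝ, 1 < l → Upper (product S α) l Q → NoZeros F ∧ l ^ m ≤ Q := by
    intro l Q hl h
    unfold Upper at h
    rw [product_eq] at h
    exact Pool.Agent.Q190.RV.one_upper half_c hb hH hm hl h
  have u2 : ∀ l q : ℝ, 1 < l → 0 < q → NoZeros F → Lower (product S α) l q → q ≤ l ^ m := by
    intro l q hl hq hz h
    unfold Lower at h
    rw [product_eq] at h
    exact Pool.Agent.Q190.RV.one_lower half_c hb hH hm hz hl hq h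
  refine ⟨m, hm', u1, fun l q Q hl hq h2 h3 => ?_, fun l r hl h => ?_, fun r => ?_, fun κ h => ((o1' κ).1 h).1, ?_,
    fun r hr l Q hl hQ h => ?_⟩
  · obtain ⟨a1, a2⟩ := u1 l Q hl h3
    exact ⟨a1, u2 l q hl hq a1 h2, a2⟩
  · rw [product_eq] at h
    exact Pool.Agent.Q190.RV.one_limit half_c hb hH hm hl h
  · rw [o1' r]
    refine and_congr_left fun _ => ?_
    rw [Nat.cast_inj]
    exact eq_comm
  · intro h
    obtain ⟨a1, a2⟩ := o2 h
    refine ⟨a1, fun l hl => ?_⟩
    obtain ⟨a, b, ha, hab⟩ := a2 l hl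
    exact ⟨a, b, ha, hab.mono fun y hy => hy.1, hab.mono fun y hy => hy.2⟩
  · obtain ⟨a1, a2⟩ := u1 l Q hl h
    have hlt : m < r + 2 := (pow_lt_pow_iff_right₀ hl).1 (lt_of_le_of_lt a2 hQ)
    have hle : m ≤ r := by omega
    refine ⟨a1, hle, fun hr1 => by omega, fun q hq h2 => ?_⟩
    have hq0 : 0 < q := by
      have h3 : 0 < l ^ 2 * q := lt_trans (pow_pos (by linarith) r) hq
      exact (pos_iff_pos_of_mul_pos h3).1 (pow_pos (by linarith) 2)
    have h3 := u2 l q hl hq0 a1 h2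
    have h4 : l ^ r < l ^ (m + 2) := by
      rw [pow_add, mul_comm (l ^ m)]
      exact lt_of_lt_of_le hq (mul_le_mul_of_nonneg_left h3 (pow_nonneg (by linarith) 2))
    have h5 : r < m + 2 := (pow_lt_pow_iff_right₀ hl).1 h4
    omega

end Pool.Agent.Results.MP_7c08ba_nt.SatakeProductRatios
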