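import Mathlib
import Pool.Agent.Q18.P.Par

/-!
# Bloch-Kato for finite families of conjugate-self-dual representations, from one product on one sequence of windows

Let `π_1, …, π_m` be regular algebraic cuspidal representations of `GL_{n_i}` over the imaginary quadratic field as in the
problem (`π_i^∨ ≅ π_i^c |·|^{-1}`), `ε(π_i) = (-1)^{w_i}`, `w_i ∈ {0, 1}`.  `α_{i,v,j}` are the Satake parameters of
`π_i |·|^{-1/2}` at the places `v ∉ S`, of absolute value `1`; `F_i(s) = L^S(s - 1/2, π_i)`, with the centre `s = 1/2`;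
`d_i(ι) = dim H¹_f(F, ρ_{π_i,ι})` for the pairs `ι` of a prime and an isomorphism.  `Known` lists what is used: holomorphic of
polynomial growth in some `Re s > 1/2 - η`, the Euler product, the parity (functional equation), and `d(ι) = ord` if the
central order is `0` or `1` (theorems for example for the base changes of newforms of weight two: Gross-Zagier, Kolyvagin,
Kato; in general a hypothesis).  ONE product for the family:

`P(y) = ∏_i ∏_{v ∉ S, q_v ≤ y} |∏_j (1 - α_{i,v,j} q_v^{-1/2})|`.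

Fix `0 < δ < 1`; `U(κ, B)` at `Y`: `∫_{Y^(1-δ)}^Y max (log P - κ log log y, 0) dy/y ≤ B log Y`; `w = ∑ w_i`.

1. `U(κ, B)` for arbitrarily large `Y` (one sequence of windows, as sparse as we like) ⟹ the Riemann hypothesis for all
   `L(s, π_i)`; `ord_{s=0} L(s, π_i) = dim H¹_f` (all `ι`) for all but at most `(κ - w)/2` of the `π_i`; if `κ < w + 2`, then
   for all `i` and `ι`, both sides being `w_i`.
2. If the conjecture fails for at least `k` of the `π_i` (some `ι`), then `U(κ, B)` fails for ALL large `Y`, for every `B` and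
   every `κ < w + 2k`.
3. For any one `κ` in `[w, w + 2)`: [the Riemann hypothesis and `ord = dim H¹_f = w_i` for all `i`, `ι`] ⟺ `U(κ, B)` for some
   `B` and arbitrarily large `Y` ⟺ for some `B` and all large `Y`.
4. Let `r_i ≡ w_i mod 2` (for example `r_i = dim H¹_f(F, ρ_{π_i,ι_i})` under the parity conjecture), `r = ∑ r_i`.  For any one
   `κ` in `[r, r + 2)`: [the Riemann hypothesis and `∑ ord_{s=0} L(s, π_i) ≤ r`] ⟺ the same two.
5. For any real `κ`: [the Riemann hypothesis and `∑ ord ≤ κ`] ⟺ the same two.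
-/

set_option autoImplicit false

namespace Pool.Agent.Results.MP_7c08ba_nt.SelmerDimensions

open Filter Topology Set Complex NumberField IsDedekindDomain MeasureTheory
open Pool.Agent.Q18.P (norm Holo NoZeros Order MeanBound excess upTo)

variable {K : Type} [Field K] [NumberField K]

/-- What is used about `π`: `α` are the Satake parameters (unitary normalisation), `F` the incomplete `L`-function with the
centre `1/2`, `w` the parity of the order, `d ι` the dimension of `H¹_f`. -/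
structure Known (S : Finset (HeightOneSpectrum (𝓞 K))) {n : ℕ} (α : HeightOneSpectrum (𝓞 K) → Fin n → ℂ) (F : ℂ → ℂ)
    (w : ℤ) {I : Type} (d : I → ℕ) : Prop where
  abs : ∀ v, v ∉ S → ∀ j, ‖α v j‖ = 1
  /-- holomorphic of polynomial growth in a half plane `Re s > 1/2 - η` -/
  holo : Holo (1 / 2) F
  euler : ∀ s : ℂ, 1 < s.re →
    HasProd (fun v : {v : HeightOneSpectrum (𝓞 K) // v ∉ S} => (∏ j, (1 - α v.1 j * (norm v.1 : ℂ) ^ (-s)))⁻¹) (F s)
  range : w = 0 ∨ w = 1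
  /-- the functional equation -/
  parity : ∀ e : ℤ, Order (1 / 2) F e → 2 ∣ e - w
  zero : Order (1 / 2) F 0 → ∀ ι, d ι = 0
  one : Order (1 / 2) F 1 → ∀ ι, d ι = 1

/-- `P(y) = ∏_i ∏_{v ∉ S, q_v ≤ y} |∏_j (1 - α_{i,v,j} q_v^{-1/2})|` -/
noncomputable def product (S : Finset (HeightOneSpectrum (𝓞 K))) {m : ℕ} {n : Fin m → ℕ}
    (α : (i : Fin m) → HeightOneSpectrum (𝓞 K) → Fin (n i) → ℂ) (y : ℝ) : ℝ :=
  ∏ i, ∏ᶠ v ∈ upTo S y, ‖∏ j, (1 - α i v j * (norm v : ℂ) ^ (-(((1 / 2 : ℝ)) : ℂ)))‖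

/-- **The Bloch-Kato conjecture in finite families and windows.** -/
theorem result (K : Type) [Field K] [NumberField K] (m : ℕ) (n : Fin m → ℕ) (S : Finset (HeightOneSpectrum (𝓞 K)))
    (α : (i : Fin m) → HeightOneSpectrum (𝓞 K) → Fin (n i) → ℂ) (F : Fin m → ℂ → ℂ) (w : Fin m → ℤ)
    (I : Type) (d : Fin m → I → ℕ) (h : ∀ i, Known S (α i) (F i) (w i) (d i)) (δ : ℝ) (h0 : 0 < δ) (h1 : δ < 1) :
    -- (1) one sequence of windows
    (∀ κ B : ℝ, (∃ᶠ Y : ℝ in atTop, MeanBound δ (excess (product S α) κ) B Y) →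
      (∀ i, NoZeros (1 / 2) (F i)) ∧
      (Nat.card {i // ∃ ι, ¬ Order (1 / 2) (F i) (d i ι)} : ℝ) ≤ (κ - ((∑ i, w i : ℤ) : ℝ)) / 2 ∧
      (κ < ((∑ i, w i : ℤ) : ℝ) + 2 → ∀ i, Order (1 / 2) (F i) (w i) ∧ ∀ ι, (d i ι : ℤ) = w i)) ∧
    -- (2) in every window
    (∀ k : ℕ, k ≤ Nat.card {i // ∃ ι, ¬ Order (1 / 2) (F i) (d i ι)} → ∀ κ B : ℝ,
      κ < ((∑ i, w i : ℤ) : ℝ) + 2 * k →
      ∀ᶠ Y : ℝ in atTop, ¬ MeanBound δ (excess (product S α) κ) B Y) ∧
    -- (3) the conjecture for all members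
    (∀ κ : ℝ, ((∑ i, w i : ℤ) : ℝ) ≤ κ → κ < ((∑ i, w i : ℤ) : ℝ) + 2 → List.TFAE [
      (∀ i, NoZeros (1 / 2) (F i)) ∧ ∀ i, Order (1 / 2) (F i) (w i) ∧ ∀ ι, (d i ι : ℤ) = w i,
      ∃ B : ℝ, ∃ᶠ Y : ℝ in atTop, MeanBound δ (excess (product S α) κ) B Y,
      ∃ B : ℝ, ∀ᶠ Y : ℝ in atTop, MeanBound δ (excess (product S α) κ) B Y]) ∧
    -- (4) numbers of the right parity
    (∀ r : Fin m → ℕ, (∀ i, (2 : ℤ) ∣ (r i : ℤ) - w i) → ∀ κ : ℝ, ((∑ i, r i : ℕ) : ℝ) ≤ κ →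
      κ < ((∑ i, r i : ℕ) : ℝ) + 2 → List.TFAE [
      (∀ i, NoZeros (1 / 2) (F i)) ∧ ∃ e : Fin m → ℤ, (∀ i, Order (1 / 2) (F i) (e i)) ∧ ∑ i, e i ≤ ((∑ i, r i : ℕ) : ℤ),
      ∃ B : ℝ, ∃ᶠ Y : ℝ in atTop, MeanBound δ (excess (product S α) κ) B Y,
      ∃ B : ℝ, ∀ᶠ Y : ℝ in atTop, MeanBound δ (excess (product S α) κ) B Y]) ∧
    -- (5) the sum of the orders
    (∀ κ : ℝ, List.TFAE [
      (∀ i, NoZeros (1 / 2) (F i)) ∧ ∃ e : Fin m → ℤ, (∀ i, Order (1 / 2) (F i) (e i)) ∧ ((∑ i, e i : ℤ) : ℝ) ≤ κ,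
      ∃ B : ℝ, ∃ᶠ Y : ℝ in atTop, MeanBound δ (excess (product S α) κ) B Y,
      ∃ B : ℝ, ∀ᶠ Y : ℝ in atTop, MeanBound δ (excess (product S α) κ) B Y]) := by
  classical
  have hc : (1 / 2 : ℝ) = (((0 : ℕ) : ℝ) + 1) / 2 := by norm_num
  have hb : ∀ i, Pool.Agent.Q18.P.Bdd 0 S (α i) := by
    intro i v hv j
    rw [(h i).abs v hv j]
    simp
  have hE : ∀ i, Pool.Agent.Q18.P.Euler (1 / 2) S (α i) (F i) := fun i s hs => (h i).euler s (by linarith)
  have hmin : ∀ i, Order (1 / 2) (F i) (w i) → ∀ ι, (d i ι : ℤ) = w i := by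
    intro i hi ι
    rcases (h i).range with h2 | h2
    · rw [h2] at hi ⊢
      rw [(h i).zero hi ι]
      rfl
    · rw [h2] at hi ⊢
      rw [(h i).one hi ι]
      rfl
  obtain ⟨t1, t2, t3⟩ := Pool.Agent.Q18.P.signs hc hb (fun i => (h i).holo) hE w (fun i => (h i).range)
    (fun i => (h i).parity) (fun i => ∀ ι, Order (1 / 2) (F i) (d i ι))
    (fun i hi ι => by rw [hmin i hi ι]; exact hi) h0 h1
  have e1 : (fun y => ∏ i, Pool.Agent.Q18.P.product (1 / 2) S (α i) y) = product S α := rfl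
  rw [e1] at t1 t2 t3
  have e3 : Nat.card {i // ¬ ∀ ι, Order (1 / 2) (F i) (d i ι)} =
      Nat.card {i // ∃ ι, ¬ Order (1 / 2) (F i) (d i ι)} := by
    refine Nat.card_congr (Equiv.subtypeEquivRight fun i => ?_)
    push Not
    exact Iff.rfl
  rw [e3] at t1
  have t4 : ∀ κ B : ℝ, (∃ᶠ Y : ℝ in atTop, MeanBound δ (excess (product S α) κ) B Y) →
      (∀ i, NoZeros (1 / 2) (F i)) ∧
      (Nat.card {i // ∃ ι, ¬ Order (1 / 2) (F i) (d i ι)} : ℝ) ≤ (κ - ((∑ i, w i : ℤ) : ℝ)) / 2 ∧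
      (κ < ((∑ i, w i : ℤ) : ℝ) + 2 → ∀ i, Order (1 / 2) (F i) (w i) ∧ ∀ ι, (d i ι : ℤ) = w i) := by
    intro κ B hB
    obtain ⟨a1, a2, a3⟩ := t1 κ B hB
    exact ⟨a1, a2, fun hκ i => ⟨a3 hκ i, hmin i (a3 hκ i)⟩⟩
  refine ⟨t4, fun k hk κ B hκ => ?_, fun κ hκ1 hκ2 => ?_, fun r hr κ hκ1 hκ2 => ?_, t3⟩
  · refine Filter.not_frequently.1 fun hB => ?_
    have h2 := (t4 κ B hB).2.1
    have h3 : (k : ℝ) ≤ Nat.card {i // ∃ ι, ¬ Order (1 / 2) (F i) (d i ι)} := by exact_mod_cast hk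
    linarith
  · have t := t2 κ hκ1 hκ2
    have e4 : ((∀ i, NoZeros (1 / 2) (F i)) ∧ ∀ i, Order (1 / 2) (F i) (w i)) ↔
        ((∀ i, NoZeros (1 / 2) (F i)) ∧ ∀ i, Order (1 / 2) (F i) (w i) ∧ ∀ ι, (d i ι : ℤ) = w i) :=
      and_congr_right fun _ => forall_congr' fun i => ⟨fun h2 => ⟨h2, hmin i h2⟩, fun h2 => h2.1⟩
    rw [e4] at t
    exact t
  · have t := t3 κ
    have e5 : ((∀ i, NoZeros (1 / 2) (F i)) ∧ ∃ e : Fin m → ℤ, (∀ i, Order (1 / 2) (F i) (e i)) ∧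
          ((∑ i, e i : ℤ) : ℝ) ≤ κ) ↔
        ((∀ i, NoZeros (1 / 2) (F i)) ∧ ∃ e : Fin m → ℤ, (∀ i, Order (1 / 2) (F i) (e i)) ∧
          ∑ i, e i ≤ ((∑ i, r i : ℕ) : ℤ)) := by
      refine and_congr_right fun _ => exists_congr fun e => and_congr_right fun he => ?_
      constructor
      · intro hle
        have h2 : ((∑ i, e i : ℤ) : ℝ) < ((((∑ i, r i : ℕ) : ℤ) + 2 : ℤ) : ℝ) := by
          push_cast
          push_cast at hle hκ2
          linarith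
        have h3 : ∑ i, e i < ((∑ i, r i : ℕ) : ℤ) + 2 := by exact_mod_cast h2
        have h4 : (2 : ℤ) ∣ ∑ i, e i - ((∑ i, r i : ℕ) : ℤ) := by
          have h5 : ∑ i, e i - ((∑ i, r i : ℕ) : ℤ) = ∑ i, ((e i - w i) - ((r i : ℤ) - w i)) := by
            push_cast
            rw [← Finset.sum_sub_distrib]
            exact Finset.sum_congr rfl fun i _ => by ring
          rw [h5]
          exact Finset.dvd_sum fun i _ => dvd_sub ((h i).parity _ (he i)) (hr i)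
        omega
      · intro hle
        have h2 : ((∑ i, e i : ℤ) : ℝ) ≤ (((∑ i, r i : ℕ) : ℤ) : ℝ) := by exact_mod_cast hle
        have h3 : ((((∑ i, r i : ℕ) : ℤ)) : ℝ) = ((∑ i, r i : ℕ) : ℝ) := by norm_cast
        rw [h3] at h2
        exact h2.trans hκ1
    rw [e5] at t
    exact t

end Pool.Agent.Results.MP_7c08ba_nt.SelmerDimensions
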